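import Pool.Agent.Y262.QE.Stm

set_option autoImplicit false

/-! Project QE (helper262), job CORE: assembly of the abstract theorem. -/

open Set Filter Topology MeasureTheory
open scoped Real ContDiff ComplexConjugate

noncomputable section

namespace Pool.Agent.Y412.QE

open Pool.Agent.Y262.QE

/-- the second derivative of a test function is a test function -/
theorem tst_dd {L : ℝ} {χ : ℝ → ℝ} (h : Tst L χ) : Tst L fun x => -(iteratedDeriv 2 χ x) := by
  obtain ⟨h1, h2, h3⟩ := h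
  have e : iteratedDeriv 2 χ = deriv (deriv χ) := by
    rw [iteratedDeriv_succ, iteratedDeriv_one]
  have hd1 : ContDiff ℝ ∞ (deriv χ) := (contDiff_infty_iff_deriv.1 h1).2
  have hd2 : ContDiff ℝ ∞ (deriv (deriv χ)) := (contDiff_infty_iff_deriv.1 hd1).2
  rw [e]
  refine ⟨hd2.neg, h2.deriv.deriv.neg, ?_⟩
  have e1 : tsupport (fun x => -(deriv (deriv χ) x)) ⊆ tsupport (deriv (deriv χ)) := by
    apply closure_mono
    intro x hx
    rw [Function.mem_support] at hx ⊢
    intro h
    apply hx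
    rw [h, neg_zero]
  have e2 : tsupport (deriv (deriv χ)) ⊆ tsupport (deriv χ) :=
    closure_minimal (support_deriv_subset) (isClosed_tsupport _)
  have e3 : tsupport (deriv χ) ⊆ tsupport χ :=
    closure_minimal (support_deriv_subset) (isClosed_tsupport _)
  exact ((e1.trans e2).trans e3).trans h3

/-- products of test functions and functions in `L²` are integrable -/
theorem tst_int {L : ℝ} {χ : ℝ → ℝ} (h : Tst L χ) {p : ℝ → ℝ}
    (hp : MemLp p 2 (volume.restrict (Ioo 0 L))) :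
    Integrable (fun x => χ x * p x) (volume.restrict (Ioo 0 L)) := by
  have h1 : MemLp χ 2 (volume.restrict (Ioo 0 L)) :=
    (h.1.continuous.memLp_of_hasCompactSupport h.2.1).mono_measure Measure.restrict_le_self
  exact h1.integrable_mul hp

theorem core : StBs → StSp → StMM → StMon → StCnt → StDer → StQM → StMeas → StBmp → StCyl →
    StCore := by
  intro hBs hSp hMM hMon hCnt hDer hQM hMeas hBmp hCyl
  intro M _ _ _ _ μ _ h L H _ _ _ i a p hL hh h0 hpos hCy
  obtain ⟨b, k, K, hb, hk, hFm, hWy, ksym, kbd, bmono, bexp, bk⟩ :=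
    hBs M μ h L H i a p hL hh h0 hCy
  have E0 : ∀ (j : ℕ) (s : ℝ), 0 ≤ Ev a (b s) j := fun j s =>
    (hMon H a (b s) (b s) (hFm s) (hFm s) 1 one_pos (fun v => by rw [one_mul]) j).1
  have E1 : ∀ (j : ℕ) (s t : ℝ), s ≤ t → Ev a (b t) j ≤ Ev a (b s) j := fun j s t hst => by
    have h1 := (hMon H a (b s) (b t) (hFm s) (hFm t) 1 one_pos
      (fun v => by rw [one_mul]; exact bmono s t v hst) j).2
    rwa [one_mul] at h1
  have E2 : ∀ (j : ℕ) (s t : ℝ), s ≤ t →
      Ev a (b s) j ≤ Real.exp (K * (t - s)) * Ev a (b t) j := fun j s t hst =>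
    (hMon H a (b t) (b s) (hFm t) (hFm s) _ (Real.exp_pos _) (fun v => bexp s t v hst) j).2
  have E3 : ∀ R : ℝ, ∃ C : ℝ, ∀ s, |s| ≤ R → ∀ (j : ℕ) (lam : ℝ), 1 ≤ lam →
      Ev a (b s) j ≤ lam → (j + 1 : ℝ) ≤ C * lam := by
    intro R
    obtain ⟨C, hC⟩ := hWy R
    exact ⟨2 * C, fun s hs j lam h1 h2 => hCnt H a (b s) (hFm s) C (hC s hs) j lam h1 h2⟩
  -- the set of parameters with equidistribution
  let S : Set ℝ := {s | ∀ (u : ℕ → H) (lam : ℕ → ℝ), Tendsto lam atTop atTop →
      (∀ j, ∫ x, Real.exp (s * h x) * (i (u j) x) ^ 2 ∂μ = 1 ∧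
        ∀ v, a (u j) v = lam j * ∫ x, Real.exp (s * h x) * (i (u j) x * i v x) ∂μ) →
      ∀ f : M → ℝ, Continuous f →
        Tendsto (fun j => ∫ x, f x * (Real.exp (s * h x) * (i (u j) x) ^ 2) ∂μ) atTop
          (𝓝 ((∫ x, f x * Real.exp (s * h x) ∂μ) / ∫ x, Real.exp (s * h x) ∂μ))}
  have hsq : ∀ (s : ℝ) (u : H), ∫ x, Real.exp (s * h x) * (i u x) ^ 2 ∂μ = b s u u := by
    intro s u
    rw [hb]
    refine integral_congr_ae (Eventually.of_forall fun x => ?_)
    beta_reduce
    rw [sq]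
  -- positivity of the integrals
  have hcexp : ∀ s : ℝ, Continuous fun x => Real.exp (s * h x) := fun s =>
    Real.continuous_exp.comp (continuous_const.mul hh)
  have hint : ∀ g : M → ℝ, Continuous g → Integrable g μ := fun g hg =>
    hg.integrable_of_hasCompactSupport (HasCompactSupport.of_compactSpace g)
  have hsup : 0 < μ (Function.support h) := by
    rwa [integral_pos_iff_support_of_nonneg h0 (hint h hh)] at hpos
  have hY : ∀ s : ℝ, 0 < ∫ x, h x * Real.exp (s * h x) ∂μ := by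
    intro s
    rw [integral_pos_iff_support_of_nonneg (fun x => mul_nonneg (h0 x) (Real.exp_pos _).le)
      (hint _ (hh.mul (hcexp s)))]
    have e : Function.support (fun x => h x * Real.exp (s * h x)) = Function.support h := by
      ext x
      rw [Function.mem_support, Function.mem_support, mul_ne_zero_iff]
      exact ⟨fun h => h.1, fun h => ⟨h, (Real.exp_pos _).ne'⟩⟩
    rw [e]
    exact hsup
  have hZ : ∀ s : ℝ, 0 < ∫ x, Real.exp (s * h x) ∂μ := by
    intro s
    rw [integral_pos_iff_support_of_nonneg (fun x => (Real.exp_pos _).le) (hint _ (hcexp s))]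
    refine hsup.trans_le (measure_mono fun x _ => ?_)
    rw [Function.mem_support]
    exact (Real.exp_pos _).ne'
  -- lower bound of the derivative form for large eigenvalues
  have hS : ∀ s ∈ S, ∃ (c : ℝ) (J : ℕ), 0 < c ∧ ∀ j, J ≤ j → ∃ δ : ℝ, 0 < δ ∧
      ∀ τ, 0 < τ → τ < δ → Ev a (b (s + τ)) j ≤ Ev a (b s) j * (1 - c * τ) := by
    intro s hs
    set Y : ℝ := ∫ x, h x * Real.exp (s * h x) ∂μ with hYd
    set Z : ℝ := ∫ x, Real.exp (s * h x) ∂μ with hZd
    have hYp : 0 < Y := hY s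
    have hZp : 0 < Z := hZ s
    have hc0 : 0 < Y / Z / 2 := by positivity
    have A1 : ∃ Lam : ℕ, ∀ (u : H) (lam : ℝ), (Lam : ℝ) ≤ lam → b s u u = 1 →
        (∀ v, a u v = lam * b s u v) → Y / Z / 2 ≤ k s u u := by
      by_contra hcon
      push Not at hcon
      choose u lam h1 h2 h3 h4 using hcon
      have hlam : Tendsto lam atTop atTop :=
        tendsto_atTop_mono h1 tendsto_natCast_atTop_atTop
      have h5 := hs u lam hlam (fun j => ⟨by rw [hsq]; exact h2 j, fun v => by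
        rw [h3 j v, hb]⟩) h hh
      have h6 : ∀ j, ∫ x, h x * (Real.exp (s * h x) * (i (u j) x) ^ 2) ∂μ = k s (u j) (u j) := by
        intro j
        rw [hk]
        refine integral_congr_ae (Eventually.of_forall fun x => ?_)
        beta_reduce
        ring
      simp only [h6] at h5
      have h7 : Y / Z ≤ Y / Z / 2 := le_of_tendsto' h5 fun j => (h4 j).le
      linarith
    obtain ⟨Lam, hLam⟩ := A1
    obtain ⟨e, EE, hEg⟩ := hSp H a (b s) (hFm s)
    have hMMs := hMM H a (b s) (hFm s) e EE hEg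
    obtain ⟨J, hJ⟩ := (tendsto_atTop.1 hEg.tt (Lam : ℝ)).exists_forall_of_atTop
    refine ⟨Y / Z / 2 / 2, J, by positivity, fun j hj => ?_⟩
    obtain ⟨δ, hδ, hd⟩ := hDer H a (b s) (hFm s) e EE hEg (k s) K (ksym s) (kbd s) j
      (Y / Z / 2) (Y / Z / 2 / 2) (by positivity) (by linarith) (by
        intro v hv
        rcases (hFm s).nb v |>.eq_or_lt with hz | hz
        · rw [← hz, mul_zero]
          exact (kbd s v).1
        · set t := b s v v with ht
          have hst : 0 < Real.sqrt t := Real.sqrt_pos.2 hz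
          have hss : Real.sqrt t * Real.sqrt t = t := Real.mul_self_sqrt hz.le
          have h1 := hLam ((Real.sqrt t)⁻¹ • v) (EE j) (hJ j hj) (by
            rw [map_smul, map_smul, smul_apply, smul_eq_mul, smul_eq_mul,
              ← ht]
            field_simp
            rw [sq, hss]) (fun w => by
            rw [map_smul, map_smul, smul_apply,
              smul_apply, smul_eq_mul, smul_eq_mul, hv w]
            ring)
          rw [map_smul, map_smul, smul_apply, smul_eq_mul, smul_eq_mul]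
            at h1
          have h2 : (Real.sqrt t)⁻¹ * ((Real.sqrt t)⁻¹ * k s v v) = k s v v / t := by
            rw [← mul_assoc, ← mul_inv, hss]
            ring
          rw [h2, le_div_iff₀ hz] at h1
          exact h1)
    refine ⟨δ, hδ, fun τ h1 h2 => ?_⟩
    have h3 := hd τ h1 h2 (b (s + τ)) (bk s τ)
    rw [hMMs j]
    exact h3
  -- the test function
  obtain ⟨χ, hχ, hχ0, hχ1⟩ := hBmp L hL
  have hχ' := tst_dd hχ
  set Q : ℝ := ∫ x in Ioo 0 L, (-(iteratedDeriv 2 χ x)) ^ 2 with hQd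
  have hQ : 0 ≤ Q := integral_nonneg fun x => sq_nonneg _
  obtain ⟨ex, hx1, hx2, hx3⟩ := hCy.k2 χ hχ
  obtain ⟨ey, hy1, hy2, hy3⟩ := hCy.k2 _ hχ'
  have hr : 0 < 2 * Real.sqrt Q + 1 := by positivity
  have hae := hMeas (fun j s => Ev a (b s) j) K E0 E1 E2 E3 S hS (2 * Real.sqrt Q + 1) hr
  filter_upwards [hae] with s hs
  by_contra hcon
  have hsS : s ∈ S := by
    intro u lam h1 h2 f hf
    by_contra h3
    exact hcon ⟨u, lam, h1, h2, fun h4 => h3 (h4 f hf)⟩
  obtain ⟨B, hB⟩ := hs hsS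
  obtain ⟨e, EE, hEg⟩ := hSp H a (b s) (hFm s)
  have hMMs := hMM H a (b s) (hFm s) e EE hEg
  obtain ⟨φ, hφ, hφB⟩ := extraction_of_frequently_atTop hB
  -- forms of the functions on the cylinder
  have hin : ∀ u v : H, inner ℝ (i u) (i v) = ∫ x, i u x * i v x ∂μ := by
    intro u v
    rw [L2.inner_def]
    refine integral_congr_ae (Eventually.of_forall fun x => ?_)
    simp only [RCLike.inner_apply, conj_trivial]
    ring
  have hbi : ∀ u : H, (∀ᵐ x ∂μ, i u x ≠ 0 → h x = 0) → ∀ v, b s u v = inner ℝ (i u) (i v) := by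
    intro u hu v
    rw [hb, hin]
    refine integral_congr_ae ?_
    filter_upwards [hu] with x hx
    by_cases h1 : i u x = 0
    · rw [h1]
      ring
    · rw [hx h1, mul_zero, Real.exp_zero, one_mul]
  have hbx : ∀ n v, b s (ex n) v = ∫ x in Ioo 0 L, χ x * p v n x := fun n v => by
    rw [hbi _ (hx2 n), (hx3 n v).1]
  have hby : ∀ n v, b s (ey n) v = ∫ x in Ioo 0 L, (-(iteratedDeriv 2 χ x)) * p v n x :=
    fun n v => by rw [hbi _ (hy2 n), (hy3 n v).1]
  have hbxx : ∀ n, b s (ex n) (ex n) = 1 := fun n => by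
    rw [hbi _ (hx2 n), hx1, if_pos rfl, hχ1]
  have hbyy : ∀ n, b s (ey n) (ey n) = Q := fun n => by
    rw [hbi _ (hy2 n), hy1, if_pos rfl]
  have hqm : ∀ n j : ℕ, (EE j - ((n : ℝ) + 1) ^ 2) * b s (ex n) (e j) = b s (ey n) (e j) := by
    intro n j
    have h1 : EE j * b s (ex n) (e j) = a (ex n) (e j) := by
      rw [(hFm s).sb, ← hEg.eig j, hCy.sa]
    rw [sub_mul, h1, (hx3 n (e j)).2, hbx, hby]
    have i1 := tst_int hχ' (hCy.mem (e j) n)
    have i2 := tst_int hχ (hCy.mem (e j) n)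
    rw [← integral_const_mul, ← integral_sub]
    · refine integral_congr_ae (Eventually.of_forall fun x => ?_)
      beta_reduce
      ring
    · have i3 := i1.add (i2.const_mul (((n : ℝ) + 1) ^ 2))
      refine i3.congr (Eventually.of_forall fun x => ?_)
      simp only [Pi.add_apply]
      ring
    · exact i2.const_mul _
  have hex : ∀ n : ℕ, ∃ j, |EE j - (((φ n : ℕ) : ℝ) + 1) ^ 2| ≤ 2 * Real.sqrt Q + 1 ∧
      3 / 4 * b s (ex (φ n)) (ex (φ n)) ≤ B * (b s (ex (φ n)) (e j)) ^ 2 := by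
    intro n
    refine hQM H a (b s) e EE hEg (ex (φ n)) (ey (φ n)) _ (Real.sqrt Q) _ B hr
      (Real.sqrt_nonneg _) (by linarith) (hqm (φ n)) ?_ ?_ ?_
    · rw [hbyy, hbxx, Real.sq_sqrt hQ, mul_one]
    · rw [hbxx]
      exact one_pos
    · have h1 := hφB n
      simp only [hMMs] at h1
      exact h1
  choose jj hj1 hj2 using hex
  have hBp : (0 : ℝ) < B := by
    have h1 := hj2 0
    rw [hbxx, mul_one] at h1
    by_contra h2
    have h3 : (B : ℝ) = 0 := le_antisymm (not_lt.1 h2) (Nat.cast_nonneg B)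
    rw [h3, zero_mul] at h1
    norm_num at h1
  have hlow : ∀ n, Real.sqrt (3 / (4 * B)) ≤
      |∫ x in Ioo 0 L, χ x * p (e (jj n)) (φ n) x| := by
    intro n
    have h1 := hj2 n
    rw [hbxx, mul_one, hbx] at h1
    rw [← Real.sqrt_sq_eq_abs]
    apply Real.sqrt_le_sqrt
    rw [div_le_iff₀ (by positivity)]
    linarith
  have hlamt : Tendsto (fun n => EE (jj n)) atTop atTop := by
    have h1 : Tendsto (fun n : ℕ => (n : ℝ) + -(2 * Real.sqrt Q + 1)) atTop atTop :=
      tendsto_atTop_add_const_right _ _ tendsto_natCast_atTop_atTop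
    refine tendsto_atTop_mono (fun n => ?_) h1
    have h2 := (abs_le.1 (hj1 n)).1
    have h3 : (n : ℝ) ≤ (φ n : ℕ) := by exact_mod_cast hφ.id_le n
    have h4 : (0 : ℝ) ≤ (φ n : ℕ) := Nat.cast_nonneg _
    nlinarith
  refine hCyl M μ h L H i a p hL hh h0 hCy s (2 * Real.sqrt Q + 1) (Real.sqrt (3 / (4 * B))) χ
    (Real.sqrt_pos.2 (by positivity)) hχ hχ0 (fun n => e (jj n)) (fun n => EE (jj n)) φ
    hφ.tendsto_atTop hj1 (fun n => ?_) (fun n v => ?_) hlow ?_
  · rw [hsq, hEg.orth, if_pos rfl]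
  · rw [hEg.eig, hb]
  · refine hsS _ _ hlamt fun n => ⟨?_, fun v => ?_⟩
    · rw [hsq, hEg.orth, if_pos rfl]
    · rw [hEg.eig, hb]

end Pool.Agent.Y412.QE
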